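import Pool.Agent.V11231.WR.Code

set_option autoImplicit false

/-!
# The weakly reset property of Mealy automata is undecidable

Definitions (`Pool.Agent.V11231.WR.Mealy`): `Mealy Q A` is an automaton with states `Q`, alphabet `A`,
transition function `δ` and output function `out`; `run` and `tr` are the state reached and the word
computed by a word; `Syn` is the set of the reset words (`Q · u` has exactly one element);
`WeaklyReset`: the automaton is synchronizing and there is a nonempty two-sided ideal of `A*`,
contained in `Syn`, which is mapped to itself by the maps computed from the states; `table` is the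
list of the rows of `δ` and `out` of an automaton with the states `0, …, n - 1` and the letters
`0, …, k - 1`.
-/

namespace Pool.Agent.Results.MP_5b5905_lc.Undecidable

open Pool.Agent.V11231.WR

/-- No algorithm decides from the tables of a finite Mealy automaton whether it is weakly reset. There
is even a fixed number `n` of states for which no algorithm is correct for all automata with `n`
states. -/
theorem result :
    (¬ ∃ f : List (List (ℕ × ℕ)) → Bool, Computable f ∧
      ∀ (n k : ℕ) (M : Mealy (Fin n) (Fin k)), f M.table = true ↔ M.WeaklyReset) ∧
    ∃ n : ℕ, ¬ ∃ f : List (List (ℕ × ℕ)) → Bool, Computable f ∧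
      ∀ (k : ℕ) (M : Mealy (Fin n) (Fin k)), f M.table = true ↔ M.WeaklyReset := by
  have h := undecidable
  refine ⟨?_, h⟩
  rintro ⟨f, hf, hc⟩
  obtain ⟨n, hn⟩ := h
  exact hn ⟨f, hf, fun k M => hc n k M⟩

end Pool.Agent.Results.MP_5b5905_lc.Undecidable
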